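import Pool.Agent.H15.INJ.Bridge

/-!
# LEMMA INJ, part 4: `Gam G F` is acyclic
-/

set_option autoImplicit false

namespace Pool.Agent.H15.INJ

open Complex Set

private theorem bridge_h {G F : Set ℂ} (hG : IsClosed G) (hGF : ∀ z ∈ G, z ∉ F)
    (hB : ∀ a ∈ G, ∀ b ∈ G, Br G a b) (m n : ℤ) (hp : ((m : ℂ) + (n : ℂ) * I) ∈ G)
    (hq : (((m + 1 : ℤ) : ℂ) + (n : ℂ) * I) ∈ G) {y : ℂ} (hyF : y ∈ F) (h0 : y.im = n)
    (h1 : (m : ℝ) < y.re) (h2 : y.re < m + 1) :
    (Gam G F).IsBridge s(((m, n), pc G (m, n) y), ((m, n - 1), pc G (m, n - 1) y)) := by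
  have hre : ∀ z : ℂ, ((z - ((m : ℂ) + (n : ℂ) * I)) / 1).re = z.re - m := by
    intro z; simp
  have him : ∀ z : ℂ, ((z - ((m : ℂ) + (n : ℂ) * I)) / 1).im = z.im - n := by
    intro z; simp
  refine bridge_core hG hGF hB ((m : ℂ) + (n : ℂ) * I) 1 one_ne_zero hp ?_ (fun s => n ≤ s.2) ?_ ?_
    (m, n) (m, n - 1) ?_ le_rfl (by simp) hyF ?_ ?_ ?_
  · convert hq using 1
    push_cast
    ring
  · intro s z hz hs
    rw [him]
    have h3 : (n : ℝ) ≤ s.2 := by exact_mod_cast hs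
    linarith [hz.2.2.1]
  · intro s z hz hs
    rw [him]
    have h3 : (s.2 : ℝ) + 1 ≤ n := by exact_mod_cast not_le.1 hs
    linarith [hz.2.2.2]
  · intro z hz0 hz1 hz2
    rw [him] at hz0
    rw [hre] at hz1 hz2
    refine ⟨?_, ?_, ?_, ?_⟩
    · refine ⟨?_, ?_, ?_, ?_⟩ <;> dsimp only <;> linarith
    · refine ⟨?_, ?_, ?_, ?_⟩ <;> dsimp only <;> push_cast <;> linarith
    · rintro ⟨a, b⟩ ⟨h3, h4, h5, h6⟩ hs
      dsimp only at h3 h4 h5 h6 hs
      have k1 : (a : ℝ) < m + 1 := by linarith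
      have k2 : (m : ℝ) < a + 1 := by linarith
      have k3 : (b : ℝ) ≤ n := by linarith
      have k1' : a < m + 1 := by exact_mod_cast k1
      have k2' : m < a + 1 := by exact_mod_cast k2
      have k3' : b ≤ n := by exact_mod_cast k3
      have e1 : a = m := by omega
      have e2 : b = n := by omega
      rw [e1, e2]
    · rintro ⟨a, b⟩ ⟨h3, h4, h5, h6⟩ hs
      dsimp only at h3 h4 h5 h6 hs
      have k1 : (a : ℝ) < m + 1 := by linarith
      have k2 : (m : ℝ) < a + 1 := by linarith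
      have k3 : (n : ℝ) ≤ b + 1 := by linarith
      have k1' : a < m + 1 := by exact_mod_cast k1
      have k2' : m < a + 1 := by exact_mod_cast k2
      have k3' : n ≤ b + 1 := by exact_mod_cast k3
      have e1 : a = m := by omega
      have e2 : b = n - 1 := by omega
      rw [e1, e2]
  · rw [him]; linarith
  · rw [hre]; linarith
  · rw [hre]; linarith

private theorem bridge_v {G F : Set ℂ} (hG : IsClosed G) (hGF : ∀ z ∈ G, z ∉ F)
    (hB : ∀ a ∈ G, ∀ b ∈ G, Br G a b) (m n : ℤ) (hp : ((m : ℂ) + (n : ℂ) * I) ∈ G)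
    (hq : ((m : ℂ) + ((n + 1 : ℤ) : ℂ) * I) ∈ G) {y : ℂ} (hyF : y ∈ F) (h0 : y.re = m)
    (h1 : (n : ℝ) < y.im) (h2 : y.im < n + 1) :
    (Gam G F).IsBridge s(((m - 1, n), pc G (m - 1, n) y), ((m, n), pc G (m, n) y)) := by
  have hre : ∀ z : ℂ, ((z - ((m : ℂ) + (n : ℂ) * I)) / I).re = z.im - n := by
    intro z; rw [div_I]; simp
  have him : ∀ z : ℂ, ((z - ((m : ℂ) + (n : ℂ) * I)) / I).im = -(z.re - m) := by
    intro z; rw [div_I]; simp
  refine bridge_core hG hGF hB ((m : ℂ) + (n : ℂ) * I) I I_ne_zero hp ?_ (fun s => s.1 < m) ?_ ?_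
    (m - 1, n) (m, n) ?_ (by simp) (by simp) hyF ?_ ?_ ?_
  · convert hq using 1
    push_cast
    ring
  · intro s z hz hs
    rw [him]
    have h3 : (s.1 : ℝ) + 1 ≤ m := by exact_mod_cast hs
    linarith [hz.2.1]
  · intro s z hz hs
    rw [him]
    have h3 : (m : ℝ) ≤ s.1 := by exact_mod_cast not_lt.1 hs
    linarith [hz.1]
  · intro z hz0 hz1 hz2
    rw [him] at hz0
    rw [hre] at hz1 hz2
    refine ⟨?_, ?_, ?_, ?_⟩
    · refine ⟨?_, ?_, ?_, ?_⟩ <;> dsimp only <;> push_cast <;> linarith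
    · refine ⟨?_, ?_, ?_, ?_⟩ <;> dsimp only <;> linarith
    · rintro ⟨a, b⟩ ⟨h3, h4, h5, h6⟩ hs
      dsimp only at h3 h4 h5 h6 hs
      have k1 : (m : ℝ) ≤ a + 1 := by linarith
      have k2 : (b : ℝ) < n + 1 := by linarith
      have k3 : (n : ℝ) < b + 1 := by linarith
      have k1' : m ≤ a + 1 := by exact_mod_cast k1
      have k2' : b < n + 1 := by exact_mod_cast k2
      have k3' : n < b + 1 := by exact_mod_cast k3
      have e1 : a = m - 1 := by omega
      have e2 : b = n := by omega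
      rw [e1, e2]
    · rintro ⟨a, b⟩ ⟨h3, h4, h5, h6⟩ hs
      dsimp only at h3 h4 h5 h6 hs
      have k1 : (a : ℝ) ≤ m := by linarith
      have k2 : (b : ℝ) < n + 1 := by linarith
      have k3 : (n : ℝ) < b + 1 := by linarith
      have k1' : a ≤ m := by exact_mod_cast k1
      have k2' : b < n + 1 := by exact_mod_cast k2
      have k3' : n < b + 1 := by exact_mod_cast k3
      have e1 : a = m := by omega
      have e2 : b = n := by omega
      rw [e1, e2]
  · rw [him]; linarith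
  · rw [hre]; linarith
  · rw [hre]; linarith

/-- `Gam G F` is acyclic -/
theorem gam_acyclic {G F : Set ℂ} (hG : IsClosed G) (hGF : ∀ z ∈ G, z ∉ F)
    (hB : ∀ a ∈ G, ∀ b ∈ G, Br G a b)
    (hP : ∀ y ∈ F, ∀ m n : ℤ, |y.re - m| ≤ 1 → |y.im - n| ≤ 1 → ((m : ℂ) + (n : ℂ) * I) ∈ G) :
    (Gam G F).IsAcyclic := by
  rw [SimpleGraph.isAcyclic_iff_forall_adj_isBridge]
  rintro ⟨⟨m, n⟩, A⟩ ⟨⟨m', n'⟩, A'⟩ ⟨hne, y, hyF, hy, hy', hA, hA'⟩
  dsimp only at hne hy hy' hA hA'
  subst hA hA'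
  obtain ⟨a1, a2, a3, a4⟩ := hy
  obtain ⟨b1, b2, b3, b4⟩ := hy'
  dsimp only at a1 a2 a3 a4 b1 b2 b3 b4
  -- no lattice point
  have hnv : ∀ k l : ℤ, ¬ (y.re = k ∧ y.im = l) := by
    rintro k l ⟨h1, h2⟩
    have : y = (k : ℂ) + (l : ℂ) * I := Complex.ext (by simp [h1]) (by simp [h2])
    refine hGF y ?_ hyF
    rw [this]
    exact hP y hyF k l (by rw [h1]; simp) (by rw [h2]; simp)
  have hG1 : ∀ k l : ℤ, (k : ℝ) - 1 ≤ y.re → y.re ≤ k + 1 → (l : ℝ) - 1 ≤ y.im → y.im ≤ l + 1 →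
      ((k : ℂ) + (l : ℂ) * I) ∈ G := by
    intro k l h1 h2 h3 h4
    exact hP y hyF k l (abs_le.2 ⟨by linarith, by linarith⟩) (abs_le.2 ⟨by linarith, by linarith⟩)
  -- horizontal edges
  have hor : ∀ k l : ℤ, (k : ℝ) ≤ y.re → y.re ≤ k + 1 → y.im = l →
      (Gam G F).IsBridge s(((k, l), pc G (k, l) y), ((k, l - 1), pc G (k, l - 1) y)) := by
    intro k l h1 h2 h3
    refine bridge_h hG hGF hB k l (hG1 k l (by linarith) h2 (by linarith) (by linarith))
      (hG1 (k + 1) l (by push_cast; linarith) (by push_cast; linarith) (by linarith) (by linarith)) hyF h3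
      (lt_of_le_of_ne h1 (fun h => hnv k l ⟨h.symm, h3⟩))
      (lt_of_le_of_ne h2 (fun h => hnv (k + 1) l ⟨by push_cast; exact h, h3⟩))
  have ver : ∀ k l : ℤ, (l : ℝ) ≤ y.im → y.im ≤ l + 1 → y.re = k →
      (Gam G F).IsBridge s(((k - 1, l), pc G (k - 1, l) y), ((k, l), pc G (k, l) y)) := by
    intro k l h1 h2 h3
    refine bridge_v hG hGF hB k l (hG1 k l (by linarith) (by linarith) (by linarith) h2)
      (hG1 k (l + 1) (by linarith) (by linarith) (by push_cast; linarith) (by push_cast; linarith)) hyF h3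
      (lt_of_le_of_ne h1 (fun h => hnv k l ⟨h3, h.symm⟩))
      (lt_of_le_of_ne h2 (fun h => hnv k (l + 1) ⟨h3, by push_cast; exact h⟩))
  by_cases hm : m = m'
  · subst hm
    have hn : n ≠ n' := fun h => hne (by rw [h])
    rcases lt_or_gt_of_ne hn with h | h
    · -- n < n'
      have k1 : (n : ℝ) + 1 ≤ n' := by exact_mod_cast h
      have k2 : y.im = n' := le_antisymm (by linarith) b3
      have k3 : (n' : ℝ) ≤ n + 1 := by linarith
      have k3' : n' ≤ n + 1 := by exact_mod_cast k3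
      have e : n = n' - 1 := by omega
      subst e
      rw [Sym2.eq_swap]
      exact hor m n' a1 a2 k2
    · have k1 : (n' : ℝ) + 1 ≤ n := by exact_mod_cast h
      have k2 : y.im = n := le_antisymm (by linarith) a3
      have k3 : (n : ℝ) ≤ n' + 1 := by linarith
      have k3' : n ≤ n' + 1 := by exact_mod_cast k3
      have e : n' = n - 1 := by omega
      subst e
      exact hor m n a1 a2 k2
  · rcases lt_or_gt_of_ne hm with h | h
    · -- m < m'
      have k1 : (m : ℝ) + 1 ≤ m' := by exact_mod_cast h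
      have k2 : y.re = m' := le_antisymm (by linarith) b1
      have k3 : (m' : ℝ) ≤ m + 1 := by linarith
      have k3' : m' ≤ m + 1 := by exact_mod_cast k3
      have e : m = m' - 1 := by omega
      subst e
      -- n = n'
      have e2 : n = n' := by
        by_contra hcon
        rcases lt_or_gt_of_ne hcon with h5 | h5
        · have h6 : (n : ℝ) + 1 ≤ n' := by exact_mod_cast h5
          exact hnv m' n' ⟨k2, le_antisymm (by linarith) b3⟩
        · have h6 : (n' : ℝ) + 1 ≤ n := by exact_mod_cast h5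
          exact hnv m' n ⟨k2, le_antisymm (by linarith) a3⟩
      subst e2
      exact ver m' n a3 a4 k2
    · have k1 : (m' : ℝ) + 1 ≤ m := by exact_mod_cast h
      have k2 : y.re = m := le_antisymm (by linarith) a1
      have k3 : (m : ℝ) ≤ m' + 1 := by linarith
      have k3' : m ≤ m' + 1 := by exact_mod_cast k3
      have e : m' = m - 1 := by omega
      subst e
      have e2 : n' = n := by
        by_contra hcon
        rcases lt_or_gt_of_ne hcon with h5 | h5
        · have h6 : (n' : ℝ) + 1 ≤ n := by exact_mod_cast h5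
          exact hnv m n ⟨k2, le_antisymm (by linarith) a3⟩
        · have h6 : (n : ℝ) + 1 ≤ n' := by exact_mod_cast h5
          exact hnv m n' ⟨k2, le_antisymm (by linarith) b3⟩
      subst e2
      rw [Sym2.eq_swap]
      exact ver m n' a3 a4 k2

end Pool.Agent.H15.INJ
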