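import Mathlib

/-!
# LEMMA INJ, part 2: a compact set `G` off `F` through finitely many given points with branches of
`log ((z - a) / (z - b))` on its complement, for all `a b ∈ G`

`Br G a b`: there is a continuous `L` on `Gᶜ` with `exp (L z) = (z - a) / (z - b)`.  It is an equivalence
relation on `G`, monotone in `G`, and holds for `a b` with `segment ℝ a b ⊆ G` (principal logarithm).
-/

set_option autoImplicit false

namespace Pool.Agent.H15.INJ

open Complex Set

/-- a branch of `log ((z - a) / (z - b))` off `G` -/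
def Br (G : Set ℂ) (a b : ℂ) : Prop :=
  ∃ L : ℂ → ℂ, ContinuousOn L Gᶜ ∧ ∀ z ∈ Gᶜ, exp (L z) = (z - a) / (z - b)

theorem Br.mono {G H : Set ℂ} (h : G ⊆ H) {a b : ℂ} (hb : Br G a b) : Br H a b := by
  obtain ⟨L, h1, h2⟩ := hb
  exact ⟨L, h1.mono (compl_subset_compl.2 h), fun z hz => h2 z (compl_subset_compl.2 h hz)⟩

theorem Br.symm {G : Set ℂ} {a b : ℂ} (hb : Br G a b) : Br G b a := by
  obtain ⟨L, h1, h2⟩ := hb
  refine ⟨fun z => -L z, h1.neg, fun z hz => ?_⟩
  rw [exp_neg, h2 z hz, inv_div]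

theorem Br.trans {G : Set ℂ} {a b c : ℂ} (hbG : b ∈ G) (h : Br G a b) (h' : Br G b c) : Br G a c := by
  obtain ⟨L, h1, h2⟩ := h
  obtain ⟨L', h1', h2'⟩ := h'
  refine ⟨fun z => L z + L' z, h1.add h1', fun z hz => ?_⟩
  have hzb : z - b ≠ 0 := sub_ne_zero.2 (fun hh => hz (hh ▸ hbG))
  rw [exp_add, h2 z hz, h2' z hz, div_mul_div_cancel₀ hzb]

theorem Br.seg {G : Set ℂ} {a b : ℂ} (h : segment ℝ a b ⊆ G) : Br G a b := by
  have key : ∀ z ∈ Gᶜ, (z - a) / (z - b) ∈ slitPlane := by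
    intro z hz
    have hzs : z ∉ segment ℝ a b := fun hh => hz (h hh)
    have hzb : z - b ≠ 0 := sub_ne_zero.2 (fun hh => hzs (hh ▸ right_mem_segment ℝ a b))
    have hza : z - a ≠ 0 := sub_ne_zero.2 (fun hh => hzs (hh ▸ left_mem_segment ℝ a b))
    by_contra hcon
    rw [mem_slitPlane_iff, not_or, not_lt, not_not] at hcon
    obtain ⟨hre, him⟩ := hcon
    set q : ℂ := (z - a) / (z - b) with hq
    have hqe : q = ((q.re : ℝ) : ℂ) := Complex.ext (by simp) (by simpa using him)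
    have hmul : z - a = q * (z - b) := by rw [hq]; field_simp
    have hmul2 : z - a = ((q.re : ℝ) : ℂ) * (z - b) := by rw [← hqe]; exact hmul
    set t : ℝ := -q.re with ht
    have ht0 : 0 ≤ t := by rw [ht]; linarith
    have h1t : (0 : ℝ) < 1 + t := by linarith
    apply hzs
    refine ⟨1 / (1 + t), t / (1 + t), by positivity, by positivity, by field_simp, ?_⟩
    have hqt : q.re = -t := by rw [ht]; ring
    rw [hqt] at hmul2
    have hc : ((1 : ℂ) + (t : ℂ)) ≠ 0 := by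
      have : ((1 + t : ℝ) : ℂ) ≠ 0 := ofReal_ne_zero.2 h1t.ne'
      simpa using this
    simp only [real_smul]
    push_cast
    push_cast at hmul2
    field_simp
    linear_combination (-1 : ℂ) * hmul2
  refine ⟨fun z => log ((z - a) / (z - b)), ?_, ?_⟩
  · intro z hz
    have hzs : z ∉ segment ℝ a b := fun hh => hz (h hh)
    have hzb : z - b ≠ 0 := sub_ne_zero.2 (fun hh => hzs (hh ▸ right_mem_segment ℝ a b))
    have hc : ContinuousAt (fun w : ℂ => (w - a) / (w - b)) z :=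
      ContinuousAt.div (by fun_prop) (by fun_prop) hzb
    exact (ContinuousAt.clog hc (key z hz)).continuousWithinAt
  · intro z hz
    have hzs : z ∉ segment ℝ a b := fun hh => hz (h hh)
    have hzb : z - b ≠ 0 := sub_ne_zero.2 (fun hh => hzs (hh ▸ right_mem_segment ℝ a b))
    have hza : z - a ≠ 0 := sub_ne_zero.2 (fun hh => hzs (hh ▸ left_mem_segment ℝ a b))
    exact exp_log (div_ne_zero hza hzb)

/-- good compact sets with base point `v` -/
def Good (V : Set ℂ) (v : ℂ) (G : Set ℂ) : Prop :=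
  IsCompact G ∧ G ⊆ V ∧ v ∈ G ∧ ∀ a ∈ G, Br G a v

theorem Good.union {V : Set ℂ} {v : ℂ} {G H : Set ℂ} (h : Good V v G) (h' : Good V v H) :
    Good V v (G ∪ H) := by
  obtain ⟨c1, s1, m1, b1⟩ := h
  obtain ⟨c2, s2, m2, b2⟩ := h'
  refine ⟨c1.union c2, union_subset s1 s2, Or.inl m1, ?_⟩
  rintro a (ha | ha)
  · exact (b1 a ha).mono subset_union_left
  · exact (b2 a ha).mono subset_union_right

theorem Good.add_seg {V : Set ℂ} {v : ℂ} {G : Set ℂ} (h : Good V v G) {z w : ℂ} (hz : z ∈ G)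
    (hs : segment ℝ z w ⊆ V) : Good V v (G ∪ segment ℝ z w) := by
  obtain ⟨c1, s1, m1, b1⟩ := h
  have hcs : IsCompact (segment ℝ z w) := by
    rw [segment_eq_image_lineMap]
    exact isCompact_Icc.image (by fun_prop)
  refine ⟨c1.union hcs, union_subset s1 hs, Or.inl m1, ?_⟩
  rintro a (ha | ha)
  · exact (b1 a ha).mono subset_union_left
  · have h1 : Br (G ∪ segment ℝ z w) a z := by
      apply Br.seg
      refine Subset.trans ?_ subset_union_right
      exact (convex_segment z w).segment_subset ha (left_mem_segment ℝ z w)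
    exact h1.trans (Or.inl hz) ((b1 z hz).mono subset_union_left)

theorem exists_good_pt {V : Set ℂ} (hV : IsOpen V) (hc : IsPreconnected V) {v : ℂ} (hv : v ∈ V)
    {p : ℂ} (hp : p ∈ V) : ∃ G, Good V v G ∧ p ∈ G := by
  set W : Set ℂ := {z | ∃ G, Good V v G ∧ z ∈ G} with hW
  have hWV : W ⊆ V := by
    rintro z ⟨G, hG, hz⟩
    exact hG.2.1 hz
  have hstep : ∀ z ∈ W, ∀ w ∈ V, segment ℝ z w ⊆ V → w ∈ W := by
    rintro z ⟨G, hG, hz⟩ w _ hs
    exact ⟨_, hG.add_seg hz hs, Or.inr (right_mem_segment ℝ z w)⟩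
  have hWo : IsOpen W := by
    rw [Metric.isOpen_iff]
    intro z hz
    obtain ⟨ε, hε, hb⟩ := Metric.isOpen_iff.1 hV z (hWV hz)
    refine ⟨ε, hε, fun w hw => hstep z hz w (hb hw) ?_⟩
    exact ((convex_ball z ε).segment_subset (Metric.mem_ball_self hε) hw).trans hb
  have hsub : V ⊆ W := by
    refine hc.subset_of_closure_inter_subset hWo ⟨v, hv, ?_⟩ ?_
    · refine ⟨{v}, ⟨isCompact_singleton, singleton_subset_iff.2 hv, mem_singleton v, ?_⟩, mem_singleton v⟩
      intro a ha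
      rw [mem_singleton_iff.1 ha]
      exact Br.seg (by rw [segment_same])
    · rintro z ⟨hzc, hzV⟩
      obtain ⟨ε, hε, hb⟩ := Metric.isOpen_iff.1 hV z hzV
      obtain ⟨w, hwW, hwd⟩ := Metric.mem_closure_iff.1 hzc ε hε
      refine hstep w hwW z hzV ?_
      refine ((convex_ball z ε).segment_subset ?_ (Metric.mem_ball_self hε)).trans hb
      rw [Metric.mem_ball, dist_comm]
      exact hwd
  exact hsub hp

theorem exists_good {V : Set ℂ} (hV : IsOpen V) (hc : IsPreconnected V) {v : ℂ} (hv : v ∈ V)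
    {P : Set ℂ} (hP : P.Finite) (hPV : P ⊆ V) : ∃ G, Good V v G ∧ P ⊆ G := by
  induction P, hP using Set.Finite.induction_on with
  | empty =>
    obtain ⟨G, hG, _⟩ := exists_good_pt hV hc hv hv
    exact ⟨G, hG, empty_subset _⟩
  | @insert a P _ _ ih =>
    obtain ⟨G, hG, hPG⟩ := ih ((subset_insert _ _).trans hPV)
    obtain ⟨H, hH, haH⟩ := exists_good_pt hV hc hv (hPV (mem_insert _ _))
    refine ⟨G ∪ H, hG.union hH, ?_⟩
    rintro x (rfl | hx)
    · exact Or.inr haH
    · exact Or.inl (hPG hx)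

/-- the set `G` used in the graph -/
theorem exists_G {F : Set ℂ} (hF : IsCompact F) (hc : IsPreconnected Fᶜ) {P : Set ℂ} (hP : P.Finite)
    (hPF : ∀ p ∈ P, p ∉ F) (hne : P.Nonempty) : ∃ G : Set ℂ, IsCompact G ∧ (∀ z ∈ G, z ∉ F) ∧ P ⊆ G ∧
    ∀ a ∈ G, ∀ b ∈ G, Br G a b := by
  obtain ⟨v, hv⟩ := hne
  obtain ⟨G, ⟨h1, h2, h3, h4⟩, h5⟩ := exists_good hF.isClosed.isOpen_compl hc (v := v) (hPF v hv) hP hPF
  exact ⟨G, h1, h2, h5, fun a ha b hb => (h4 a ha).trans h3 (h4 b hb).symm⟩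

end Pool.Agent.H15.INJ
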