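import Pool.Agent.H15.INJ.Lg
import Pool.Agent.H15.INJ.Poly

/-!
# LEMMA INJ, part 3: the graph of the pieces of the unit squares off `G` is acyclic

Vertices `(s, A)`, `s` a unit square, `A` a component of `Sq s \ G`; two vertices are adjacent if the squares
are different and the pieces have a common point in `F`.  All vertices of the squares meeting `F` are in `G`,
so a common point is in an open grid edge.  Every edge is a bridge: the integer valued function
`(branch off G of log ((z - a) / (z - b)) - one-sided branch) / (2 π I)` is constant along all other edges.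
-/

set_option autoImplicit false

namespace Pool.Agent.H15.INJ

open Complex Set

/-- closed unit squares -/
def Sq (s : ℤ × ℤ) : Set ℂ :=
  {z | (s.1 : ℝ) ≤ z.re ∧ z.re ≤ s.1 + 1 ∧ (s.2 : ℝ) ≤ z.im ∧ z.im ≤ s.2 + 1}

/-- the piece of `y` in the square `s` off `G` -/
def pc (G : Set ℂ) (s : ℤ × ℤ) (y : ℂ) : Set ℂ := connectedComponentIn (Sq s ∩ Gᶜ) y

/-- the graph of the pieces -/
def Gam (G F : Set ℂ) : SimpleGraph ((ℤ × ℤ) × Set ℂ) where
  Adj v v' := v.1 ≠ v'.1 ∧ ∃ y ∈ F, y ∈ Sq v.1 ∧ y ∈ Sq v'.1 ∧ v.2 = pc G v.1 y ∧ v'.2 = pc G v'.1 y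
  symm := ⟨fun _ _ ⟨h, y, hy, h1, h2, h3, h4⟩ => ⟨h.symm, y, hy, h2, h1, h4, h3⟩⟩
  loopless := ⟨fun _ h => h.1 rfl⟩

theorem bridge_core {G F : Set ℂ} (hG : IsClosed G) (hGF : ∀ z ∈ G, z ∉ F)
    (hB : ∀ a ∈ G, ∀ b ∈ G, Br G a b) (p d : ℂ) (hd : d ≠ 0) (hp : p ∈ G) (hq : p + d ∈ G)
    (σ : ℤ × ℤ → Prop)
    (hσ1 : ∀ s z, z ∈ Sq s → σ s → 0 ≤ ((z - p) / d).im)
    (hσ2 : ∀ s z, z ∈ Sq s → ¬ σ s → ((z - p) / d).im ≤ 0)
    (i0 j0 : ℤ × ℤ)
    (hi : ∀ z : ℂ, ((z - p) / d).im = 0 → 0 < ((z - p) / d).re → ((z - p) / d).re < 1 →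
      z ∈ Sq i0 ∧ z ∈ Sq j0 ∧ (∀ s, z ∈ Sq s → σ s → s = i0) ∧ (∀ s, z ∈ Sq s → ¬ σ s → s = j0))
    (hi0 : σ i0) (hj0 : ¬ σ j0)
    {y : ℂ} (hyF : y ∈ F) (hy0 : ((y - p) / d).im = 0) (hy1 : 0 < ((y - p) / d).re)
    (hy2 : ((y - p) / d).re < 1) :
    (Gam G F).IsBridge s((i0, pc G i0 y), (j0, pc G j0 y)) := by
  classical
  -- the line of the edge
  have hline : ∀ z : ℂ, ((z - p) / d).im = 0 → z = p + (((z - p) / d).re : ℂ) * d := by
    intro z hz
    have h1 : (z - p) / d = ((((z - p) / d).re : ℝ) : ℂ) := Complex.ext (by simp) (by simpa using hz)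
    rw [← h1]
    field_simp
    ring
  have hζ : ∀ t : ℝ, ((p + (t : ℂ) * d) - p) / d = (t : ℂ) := by
    intro t
    field_simp
    ring
  set T : Set ℝ := {t | p + (t : ℂ) * d ∈ G} with hT
  have hTc : IsClosed T := hG.preimage (by fun_prop)
  set t0 : ℝ := ((y - p) / d).re with ht0
  have hye : y = p + (t0 : ℂ) * d := hline y hy0
  have hyG : y ∉ G := fun h => hGF y h hyF
  have ht0T : t0 ∉ T := fun h => hyG (by rw [hye]; exact h)
  have h0T : (0 : ℝ) ∈ T := by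
    change p + ((0 : ℝ) : ℂ) * d ∈ G
    simpa using hp
  have h1T : (1 : ℝ) ∈ T := by
    change p + ((1 : ℝ) : ℂ) * d ∈ G
    simpa using hq
  obtain ⟨t1, ⟨ht1T, ht1a, ht1b⟩, ht1m⟩ := (isCompact_Icc.inter_left hTc : IsCompact (T ∩ Icc 0 t0)).exists_isGreatest
    ⟨0, h0T, le_rfl, hy1.le⟩
  obtain ⟨t2, ⟨ht2T, ht2a, ht2b⟩, ht2m⟩ := (isCompact_Icc.inter_left hTc : IsCompact (T ∩ Icc t0 1)).exists_isLeast
    ⟨1, h1T, hy2.le, le_rfl⟩
  have ht10 : t1 < t0 := lt_of_le_of_ne ht1b (fun h => ht0T (h ▸ ht1T))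
  have ht02 : t0 < t2 := lt_of_le_of_ne ht2a (fun h => ht0T (h ▸ ht2T))
  have hfree : ∀ t, t1 < t → t < t2 → t ∉ T := by
    intro t h1 h2 ht
    rcases le_total t t0 with h | h
    · exact absurd (ht1m ⟨ht, by linarith, h⟩) (not_le.2 h1)
    · exact absurd (ht2m ⟨ht, h, by linarith⟩) (not_le.2 h2)
  obtain ⟨L, hLc, hLe⟩ := hB _ ht1T _ ht2T
  -- the one-sided functions
  have hne1 : ∀ z, z ∉ G → (z - p) / d ≠ (t1 : ℂ) := by
    intro z hz h
    apply hz
    have : z = p + (t1 : ℂ) * d := by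
      rw [← h]; field_simp; ring
    rw [this]; exact ht1T
  have hne2 : ∀ z, z ∉ G → (z - p) / d ≠ (t2 : ℂ) := by
    intro z hz h
    apply hz
    have : z = p + (t2 : ℂ) * d := by
      rw [← h]; field_simp; ring
    rw [this]; exact ht2T
  set g1 : ℂ → ℂ := fun z => L z - lg (-I) t1 t2 ((z - p) / d) with hg1
  set g2 : ℂ → ℂ := fun z => L z - lg I t1 t2 ((z - p) / d) with hg2
  have hexp : ∀ c : ℂ, c ≠ 0 → ∀ z, z ∉ G → exp (L z - lg c t1 t2 ((z - p) / d)) = 1 := by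
    intro c hc z hz
    rw [exp_sub, lg_exp hc (hne1 z hz) (hne2 z hz), hLe z hz]
    have e1 : (z - p) / d - (t1 : ℂ) = (z - (p + (t1 : ℂ) * d)) / d := by field_simp; ring
    have e2 : (z - p) / d - (t2 : ℂ) = (z - (p + (t2 : ℂ) * d)) / d := by field_simp; ring
    rw [e1, e2, div_div_div_cancel_right₀ hd]
    refine div_self (div_ne_zero ?_ ?_)
    · exact sub_ne_zero.2 (fun h => hz (by rw [h]; exact ht1T))
    · exact sub_ne_zero.2 (fun h => hz (by rw [h]; exact ht2T))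
  have hpcsub : ∀ s z, pc G s z ⊆ Sq s ∩ Gᶜ := fun s z => connectedComponentIn_subset _ _
  have hpcmem : ∀ s z, z ∈ Sq s → z ∉ G → z ∈ pc G s z := fun s z h1 h2 =>
    mem_connectedComponentIn ⟨h1, h2⟩
  have hζc : Continuous fun z : ℂ => (z - p) / d := by fun_prop
  have hval1 : ∀ s z, σ s → z ∈ Sq s → z ∉ G → g1 '' pc G s z = {g1 z} := by
    intro s z hs hz hzG
    refine subset_antisymm ?_ ?_
    · rintro _ ⟨w, hw, rfl⟩
      refine mem_singleton_iff.2 ?_
      refine const_of_exp_one (isPreconnected_connectedComponentIn) (A := pc G s z) ?_ ?_ hw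
        (hpcmem s z hz hzG)
      · refine (hLc.mono fun w hw => (hpcsub s z hw).2).sub ?_
        intro w hw
        have hwG := (hpcsub s z hw).2
        have := (lg_cont_up (hσ1 s w (hpcsub s z hw).1 hs) (hne1 w hwG) (hne2 w hwG)).comp
          (f := fun z : ℂ => (z - p) / d) hζc.continuousAt
        exact this.continuousWithinAt
      · intro w hw
        exact hexp (-I) (neg_ne_zero.2 I_ne_zero) w (hpcsub s z hw).2
    · rintro _ rfl
      exact ⟨z, hpcmem s z hz hzG, rfl⟩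
  have hval2 : ∀ s z, ¬ σ s → z ∈ Sq s → z ∉ G → g2 '' pc G s z = {g2 z} := by
    intro s z hs hz hzG
    refine subset_antisymm ?_ ?_
    · rintro _ ⟨w, hw, rfl⟩
      refine mem_singleton_iff.2 ?_
      refine const_of_exp_one (isPreconnected_connectedComponentIn) (A := pc G s z) ?_ ?_ hw
        (hpcmem s z hz hzG)
      · refine (hLc.mono fun w hw => (hpcsub s z hw).2).sub ?_
        intro w hw
        have hwG := (hpcsub s z hw).2
        have := (lg_cont_dn (hσ2 s w (hpcsub s z hw).1 hs) (hne1 w hwG) (hne2 w hwG)).comp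
          (f := fun z : ℂ => (z - p) / d) hζc.continuousAt
        exact this.continuousWithinAt
      · intro w hw
        exact hexp I I_ne_zero w (hpcsub s z hw).2
    · rintro _ rfl
      exact ⟨z, hpcmem s z hz hzG, rfl⟩
  -- points in the open interval
  have hE : ∀ s : ℤ × ℤ, (∀ z : ℂ, ((z - p) / d).im = 0 → 0 < ((z - p) / d).re → ((z - p) / d).re < 1 →
      z ∈ Sq s) → ∀ z : ℂ, ((z - p) / d).im = 0 → t1 < ((z - p) / d).re → ((z - p) / d).re < t2 →
      pc G s z = pc G s y := by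
    intro s hs z hz0 hz1 hz2
    set E : Set ℂ := (fun t : ℝ => p + (t : ℂ) * d) '' Ioo t1 t2 with hEdef
    have hEp : IsPreconnected E := isPreconnected_Ioo.image _ (by fun_prop)
    have hEs : E ⊆ Sq s ∩ Gᶜ := by
      rintro _ ⟨t, ⟨ha, hb⟩, rfl⟩
      refine ⟨hs _ ?_ ?_ ?_, hfree t ha hb⟩
      · simp only [hζ t, ofReal_im]
      · simp only [hζ t, ofReal_re]; linarith
      · simp only [hζ t, ofReal_re]; linarith
    have hyE : y ∈ E := ⟨t0, ⟨ht10, ht02⟩, hye.symm⟩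
    have hzE : z ∈ E := ⟨_, ⟨hz1, hz2⟩, (hline z hz0).symm⟩
    exact (connectedComponentIn_eq (hEp.subset_connectedComponentIn hyE hEs hzE)).symm
  -- the invariant
  set N : (ℤ × ℤ) × Set ℂ → Set ℂ := fun v => if σ v.1 then g1 '' v.2 else g2 '' v.2 with hN
  rw [SimpleGraph.isBridge_iff]
  rintro ⟨w⟩
  have hmix : ∀ u v : (ℤ × ℤ) × Set ℂ, (Gam G F).Adj u v → s(u, v) ≠ s((i0, pc G i0 y), (j0, pc G j0 y)) →
      σ u.1 → ¬ σ v.1 → N u = N v := by
    intro u v huv hnot hu hv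
    obtain ⟨_, z, hzF, hzu, hzv, hu2, hv2⟩ := huv
    have hzG : z ∉ G := fun h => hGF z h hzF
    have hz0 : ((z - p) / d).im = 0 := le_antisymm (hσ2 _ _ hzv hv) (hσ1 _ _ hzu hu)
    have e1 : N u = {g1 z} := by
      simp only [hN]
      rw [if_pos hu, hu2, hval1 _ _ hu hzu hzG]
    have e2 : N v = {g2 z} := by
      simp only [hN]
      rw [if_neg hv, hv2, hval2 _ _ hv hzv hzG]
    by_cases hin : t1 < ((z - p) / d).re ∧ ((z - p) / d).re < t2
    · exfalso
      obtain ⟨_, _, hs1, hs2⟩ := hi z hz0 (by linarith [hin.1]) (by linarith [hin.2])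
      have hu1 := hs1 _ hzu hu
      have hv1 := hs2 _ hzv hv
      apply hnot
      have eu : u = (i0, pc G i0 y) := by
        refine Prod.ext hu1 ?_
        rw [hu2, hu1]
        exact hE i0 (fun z h1 h2 h3 => (hi z h1 h2 h3).1) z hz0 hin.1 hin.2
      have ev : v = (j0, pc G j0 y) := by
        refine Prod.ext hv1 ?_
        rw [hv2, hv1]
        exact hE j0 (fun z h1 h2 h3 => (hi z h1 h2 h3).2.1) z hz0 hin.1 hin.2
      rw [eu, ev]
    · have := lg_diff_out (by linarith : t1 < t2) hz0 (hne1 z hzG) (hne2 z hzG) hin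
      rw [e1, e2, hg1, hg2]
      simp only [this]
  have hstep : ∀ u v : (ℤ × ℤ) × Set ℂ,
      ((Gam G F).deleteEdges {s((i0, pc G i0 y), (j0, pc G j0 y))}).Adj u v → N u = N v := by
    intro u v huv
    rw [SimpleGraph.deleteEdges_adj, mem_singleton_iff] at huv
    obtain ⟨huv, hnot⟩ := huv
    by_cases hu : σ u.1 <;> by_cases hv : σ v.1
    · obtain ⟨_, z, hzF, hzu, hzv, hu2, hv2⟩ := huv
      have hzG : z ∉ G := fun h => hGF z h hzF
      simp only [hN]
      rw [if_pos hu, if_pos hv, hu2, hv2, hval1 _ _ hu hzu hzG, hval1 _ _ hv hzv hzG]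
    · exact hmix u v huv hnot hu hv
    · exact (hmix v u huv.symm (by rwa [Sym2.eq_swap]) hv hu).symm
    · obtain ⟨_, z, hzF, hzu, hzv, hu2, hv2⟩ := huv
      have hzG : z ∉ G := fun h => hGF z h hzF
      simp only [hN]
      rw [if_neg hu, if_neg hv, hu2, hv2, hval2 _ _ hu hzu hzG, hval2 _ _ hv hzv hzG]
  have hwalk : ∀ u v : (ℤ × ℤ) × Set ℂ,
      ((Gam G F).deleteEdges {s((i0, pc G i0 y), (j0, pc G j0 y))}).Walk u v → N u = N v := by
    intro u v w
    induction w with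
    | nil => rfl
    | cons h _ ih => exact (hstep _ _ h).trans ih
  have hfin := hwalk _ _ w
  have hyi := hi y hy0 hy1 hy2
  simp only [hN] at hfin
  rw [if_pos hi0, if_neg hj0, hval1 _ _ hi0 hyi.1 hyG, hval2 _ _ hj0 hyi.2.1 hyG,
    singleton_eq_singleton_iff] at hfin
  have hd2 := lg_diff_in (t1 := t1) (t2 := t2) hy0 (ht0 ▸ ht10) (ht0 ▸ ht02)
  have : lg I t1 t2 ((y - p) / d) - lg (-I) t1 t2 ((y - p) / d) = 0 := by
    simp only [hg1, hg2] at hfin
    linear_combination hfin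
  rw [this] at hd2
  have hpi : (2 * (Real.pi : ℂ) * I) ≠ 0 := by
    simp [Real.pi_ne_zero]
  exact hpi hd2.symm

end Pool.Agent.H15.INJ
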