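import Mathlib

/-!
# LEMMA INJ, part 1: one-sided branches of `log ((ζ - t1) / (ζ - t2))`

`lg c t1 t2 ζ = log (c (ζ - t1)) - log (c (ζ - t2))`; for `c = -I` it is continuous on the closed upper half
plane without `t1, t2`, for `c = I` on the closed lower half plane without `t1, t2`.  On the real line the
two branches agree outside `[t1, t2]` and differ by `2 π I` on `(t1, t2)`.
-/

set_option autoImplicit false

namespace Pool.Agent.H15.INJ

open Complex Set

/-- one-sided branch of the logarithm of `(ζ - t1) / (ζ - t2)` -/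
noncomputable def lg (c : ℂ) (t1 t2 : ℝ) (ζ : ℂ) : ℂ := log (c * (ζ - t1)) - log (c * (ζ - t2))

theorem lg_exp {c : ℂ} (hc : c ≠ 0) {t1 t2 : ℝ} {ζ : ℂ} (h1 : ζ ≠ t1) (h2 : ζ ≠ t2) :
    exp (lg c t1 t2 ζ) = (ζ - t1) / (ζ - t2) := by
  have h1' : ζ - t1 ≠ 0 := sub_ne_zero.2 h1
  have h2' : ζ - t2 ≠ 0 := sub_ne_zero.2 h2
  unfold lg
  rw [exp_sub, exp_log (mul_ne_zero hc h1'), exp_log (mul_ne_zero hc h2')]
  field_simp

private theorem slit_neg {ζ : ℂ} (h : 0 ≤ ζ.im) {t : ℝ} (h1 : ζ ≠ t) : -I * (ζ - t) ∈ slitPlane := by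
  rw [mem_slitPlane_iff]
  by_cases hi : 0 < ζ.im
  · left; simpa using hi
  · right
    have hz : ζ.im = 0 := le_antisymm (not_lt.1 hi) h
    have : ζ.re ≠ t := by
      intro hh
      apply h1
      apply Complex.ext
      · simpa using hh
      · simpa using hz
    simp only [mul_im, neg_re, I_re, neg_zero, neg_im, I_im, sub_re, ofReal_re, sub_im, ofReal_im]
    intro h0
    apply this
    linarith

private theorem slit_pos {ζ : ℂ} (h : ζ.im ≤ 0) {t : ℝ} (h1 : ζ ≠ t) : I * (ζ - t) ∈ slitPlane := by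
  rw [mem_slitPlane_iff]
  by_cases hi : ζ.im < 0
  · left; simpa using hi
  · right
    have hz : ζ.im = 0 := le_antisymm h (not_lt.1 hi)
    have : ζ.re ≠ t := by
      intro hh
      apply h1
      apply Complex.ext
      · simpa using hh
      · simpa using hz
    simp only [mul_im, I_re, I_im, sub_re, ofReal_re, sub_im, ofReal_im]
    intro h0
    apply this
    linarith

theorem lg_cont_up {t1 t2 : ℝ} {ζ : ℂ} (h : 0 ≤ ζ.im) (h1 : ζ ≠ t1) (h2 : ζ ≠ t2) :
    ContinuousAt (lg (-I) t1 t2) ζ := by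
  unfold lg
  refine ContinuousAt.sub ?_ ?_
  · exact ContinuousAt.clog (by fun_prop) (slit_neg h h1)
  · exact ContinuousAt.clog (by fun_prop) (slit_neg h h2)

theorem lg_cont_dn {t1 t2 : ℝ} {ζ : ℂ} (h : ζ.im ≤ 0) (h1 : ζ ≠ t1) (h2 : ζ ≠ t2) :
    ContinuousAt (lg I t1 t2) ζ := by
  unfold lg
  refine ContinuousAt.sub ?_ ?_
  · exact ContinuousAt.clog (by fun_prop) (slit_pos h h1)
  · exact ContinuousAt.clog (by fun_prop) (slit_pos h h2)

private theorem log_diff_pos {x : ℝ} (hx : 0 < x) :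
    log (I * (x : ℂ)) - log (-I * (x : ℂ)) = Real.pi * I := by
  rw [log_mul_ofReal x hx I I_ne_zero, log_mul_ofReal x hx (-I) (neg_ne_zero.2 I_ne_zero), log_I,
    log_neg_I]
  ring

private theorem log_diff_neg {x : ℝ} (hx : x < 0) :
    log (I * (x : ℂ)) - log (-I * (x : ℂ)) = -(Real.pi * I) := by
  have h1 : I * (x : ℂ) = (-I) * ((-x : ℝ) : ℂ) := by push_cast; ring
  have h2 : -I * (x : ℂ) = I * ((-x : ℝ) : ℂ) := by push_cast; ring
  rw [h1, h2, log_mul_ofReal (-x) (by linarith) I I_ne_zero,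
    log_mul_ofReal (-x) (by linarith) (-I) (neg_ne_zero.2 I_ne_zero), log_I, log_neg_I]
  ring

private theorem real_of_im {ζ : ℂ} (h : ζ.im = 0) (t : ℝ) : ζ - t = ((ζ.re - t : ℝ) : ℂ) := by
  apply Complex.ext <;> simp [h]

theorem lg_diff_in {t1 t2 : ℝ} {ζ : ℂ} (h : ζ.im = 0) (h1 : t1 < ζ.re) (h2 : ζ.re < t2) :
    lg I t1 t2 ζ - lg (-I) t1 t2 ζ = 2 * Real.pi * I := by
  have e1 := log_diff_pos (x := ζ.re - t1) (by linarith)
  have e2 := log_diff_neg (x := ζ.re - t2) (by linarith)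
  unfold lg
  rw [real_of_im h t1, real_of_im h t2]
  linear_combination e1 - e2

theorem lg_diff_out {t1 t2 : ℝ} (h12 : t1 < t2) {ζ : ℂ} (h : ζ.im = 0) (h1 : ζ ≠ t1) (h2 : ζ ≠ t2)
    (h3 : ¬ (t1 < ζ.re ∧ ζ.re < t2)) : lg I t1 t2 ζ = lg (-I) t1 t2 ζ := by
  have n1 : ζ.re ≠ t1 := by
    intro hh
    exact h1 (Complex.ext (by simpa using hh) (by simpa using h))
  have n2 : ζ.re ≠ t2 := by
    intro hh
    exact h2 (Complex.ext (by simpa using hh) (by simpa using h))
  rw [← sub_eq_zero]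
  rcases lt_or_gt_of_ne n1 with hlt | hgt
  · have e1 := log_diff_neg (x := ζ.re - t1) (by linarith)
    have e2 := log_diff_neg (x := ζ.re - t2) (by linarith)
    unfold lg
    rw [real_of_im h t1, real_of_im h t2]
    linear_combination e1 - e2
  · have hgt2 : t2 < ζ.re := by
      rcases lt_or_gt_of_ne n2 with hh | hh
      · exact absurd ⟨hgt, hh⟩ h3
      · exact hh
    have e1 := log_diff_pos (x := ζ.re - t1) (by linarith)
    have e2 := log_diff_pos (x := ζ.re - t2) (by linarith)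
    unfold lg
    rw [real_of_im h t1, real_of_im h t2]
    linear_combination e1 - e2

/-- a continuous function with `exp g = 1` on a preconnected set is constant there -/
theorem const_of_exp_one {A : Set ℂ} (hA : IsPreconnected A) {g : ℂ → ℂ} (hg : ContinuousOn g A)
    (h1 : ∀ z ∈ A, exp (g z) = 1) {x y : ℂ} (hx : x ∈ A) (hy : y ∈ A) : g x = g y := by
  have hi : ∀ z ∈ A, ∃ n : ℤ, g z = n * (2 * Real.pi * I) := fun z hz => exp_eq_one_iff.1 (h1 z hz)
  have him : IsPreconnected ((fun z => (g z).im / (2 * Real.pi)) '' A) :=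
    hA.image _ ((continuous_im.comp_continuousOn hg).div_const _)
  have hval : ∀ z ∈ A, ∀ n : ℤ, g z = n * (2 * Real.pi * I) → (g z).im / (2 * Real.pi) = n := by
    intro z _ n hn
    rw [hn]
    have : ((n : ℂ) * (2 * Real.pi * I)).im = n * (2 * Real.pi) := by simp
    rw [this]
    field_simp
  obtain ⟨n, hn⟩ := hi x hx
  obtain ⟨m, hm⟩ := hi y hy
  have key : ∀ x ∈ A, ∀ y ∈ A, ∀ n m : ℤ, g x = n * (2 * Real.pi * I) →
      g y = m * (2 * Real.pi * I) → ¬ n < m := by
    intro x hx y hy n m hn hm hlt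
    have hox := him.ordConnected.out (mem_image_of_mem _ hx) (mem_image_of_mem _ hy)
    simp only [hval x hx n hn, hval y hy m hm] at hox
    have hmem : ((n : ℝ) + 1 / 2) ∈ Icc (n : ℝ) (m : ℝ) := by
      have : (n : ℝ) + 1 ≤ m := by exact_mod_cast hlt
      constructor <;> linarith
    obtain ⟨z, hz, hze⟩ := hox hmem
    obtain ⟨k, hk⟩ := hi z hz
    simp only [hval z hz k hk] at hze
    have h2 : (2 * k : ℝ) = 2 * n + 1 := by linarith
    have h3 : (2 * k : ℤ) = 2 * n + 1 := by exact_mod_cast h2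
    omega
  have : n = m := by
    rcases lt_trichotomy n m with h | h | h
    · exact absurd h (key x hx y hy n m hn hm)
    · exact h
    · exact absurd h (key y hy x hx m n hm hn)
  rw [hn, hm, this]

end Pool.Agent.H15.INJ
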