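import Pool.Agent.H15.INJ.Acyc

/-!
# LEMMA INJ, part 5: the sheets of `f` over the pieces and the injectivity at unit scale
-/

set_option autoImplicit false

namespace Pool.Agent.H15.INJ

open Complex Set

section walks

variable {V W : Type*} {G : SimpleGraph V} {H : SimpleGraph W}

/-- a locally injective map from a graph to an acyclic graph identifies no two vertices joined by a walk -/
theorem eq_of_locinj (hH : H.IsAcyclic) (φ : G →g H)
    (hloc : ∀ u v w : V, G.Adj u v → G.Adj v w → φ u = φ w → u = w) {u v : V} (hr : G.Reachable u v)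
    (h : φ u = φ v) : u = v := by
  classical
  obtain ⟨p, hp⟩ := hr.exists_isPath
  have hchain : List.IsChain (· ≠ ·) (p.map φ).edges := by
    clear h hr
    induction p with
    | nil => simp
    | @cons a b c hab q ih =>
      rw [SimpleGraph.Walk.cons_isPath_iff] at hp
      have ih' := ih hp.1
      cases q with
      | nil => simp
      | @cons _ d _ hbd q' =>
        simp only [SimpleGraph.Walk.map_cons, SimpleGraph.Walk.edges_cons] at ih' ⊢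
        rw [List.isChain_cons_cons]
        refine ⟨?_, ih'⟩
        intro hs
        rw [Sym2.eq_iff] at hs
        rcases hs with ⟨h1, _⟩ | ⟨h1, _⟩
        · exact (φ.map_adj hab).ne h1
        · have := hloc a b d hab hbd h1
          apply hp.2
          rw [this]
          simp
  have hpath : (p.map φ).IsPath := (hH.isPath_iff_isChain _).2 hchain
  cases p with
  | nil => rfl
  | @cons _ b _ hab q =>
    exfalso
    rw [SimpleGraph.Walk.map_cons, SimpleGraph.Walk.cons_isPath_iff] at hpath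
    apply hpath.2
    rw [h]
    exact SimpleGraph.Walk.end_mem_support _

end walks

/-- the sheet of `x` over the piece of `f x` -/
def sh (G X : Set ℂ) (f : ℂ → ℂ) (r : ℝ) (s : ℤ × ℤ) (x : ℂ) : Set ℂ :=
  {x' | x' ∈ X ∧ f x' ∈ pc G s (f x) ∧ ‖x' - x‖ < r}

/-- the vertex of `x` -/
def nu (G X : Set ℂ) (f : ℂ → ℂ) (r : ℝ) (s : ℤ × ℤ) (x : ℂ) : (ℤ × ℤ) × (Set ℂ × Set ℂ) :=
  (s, pc G s (f x), sh G X f r s x)

/-- the graph of the sheets -/
def GX (G X : Set ℂ) (f : ℂ → ℂ) (r : ℝ) : SimpleGraph ((ℤ × ℤ) × (Set ℂ × Set ℂ)) where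
  Adj v v' := v.1 ≠ v'.1 ∧ ∃ x ∈ X, f x ∈ Sq v.1 ∧ f x ∈ Sq v'.1 ∧ v = nu G X f r v.1 x ∧
    v' = nu G X f r v'.1 x
  symm := ⟨fun _ _ ⟨h, y, hy, h1, h2, h3, h4⟩ => ⟨h.symm, y, hy, h2, h1, h4, h3⟩⟩
  loopless := ⟨fun _ h => h.1 rfl⟩

/-- the projection -/
def prj {G F X : Set ℂ} {f : ℂ → ℂ} (r : ℝ) (hfX : MapsTo f X F) : GX G X f r →g Gam G F where
  toFun v := (v.1, v.2.1)
  map_rel' := by
    rintro v v' ⟨h, x, hx, h1, h2, h3, h4⟩
    refine ⟨h, f x, hfX hx, h1, h2, ?_, ?_⟩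
    · rw [h3]; rfl
    · rw [h4]; rfl

theorem sq_norm {s : ℤ × ℤ} {z w : ℂ} (hz : z ∈ Sq s) (hw : w ∈ Sq s) : ‖z - w‖ ≤ 2 := by
  refine (Complex.norm_le_abs_re_add_abs_im _).trans ?_
  obtain ⟨a1, a2, a3, a4⟩ := hz
  obtain ⟨b1, b2, b3, b4⟩ := hw
  have h1 : |(z - w).re| ≤ 1 := by
    rw [sub_re, abs_le]; constructor <;> linarith
  have h2 : |(z - w).im| ≤ 1 := by
    rw [sub_im, abs_le]; constructor <;> linarith
  linarith

/-- near every point of the plane two points lie in a common square with the first -/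
theorem common_sq (z : ℂ) : ∃ δ > 0, ∀ w : ℂ, ‖w - z‖ < δ → ∃ s, z ∈ Sq s ∧ w ∈ Sq s := by
  -- one dimension
  have one : ∀ x : ℝ, ∃ δ > 0, ∀ y : ℝ, |y - x| < δ → ∃ m : ℤ, ((m : ℝ) ≤ x ∧ x ≤ m + 1) ∧
      ((m : ℝ) ≤ y ∧ y ≤ m + 1) := by
    intro x
    by_cases hx : x = ⌊x⌋
    · refine ⟨1, one_pos, fun y hy => ?_⟩
      rw [abs_lt] at hy
      rcases le_total x y with h | h
      · exact ⟨⌊x⌋, ⟨hx.ge, by linarith [hx]⟩, ⟨by linarith [hx], by linarith [hx]⟩⟩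
      · refine ⟨⌊x⌋ - 1, ⟨?_, ?_⟩, ⟨?_, ?_⟩⟩ <;> push_cast <;> linarith [hx]
    · have h1 : (⌊x⌋ : ℝ) < x := lt_of_le_of_ne (Int.floor_le x) (fun h => hx h.symm)
      have h2 : x < ⌊x⌋ + 1 := Int.lt_floor_add_one x
      refine ⟨min (x - ⌊x⌋) (⌊x⌋ + 1 - x), lt_min (by linarith) (by linarith), fun y hy => ?_⟩
      rw [abs_lt] at hy
      have h3 := min_le_left (x - ⌊x⌋) (⌊x⌋ + 1 - x)
      have h4 := min_le_right (x - ⌊x⌋) (⌊x⌋ + 1 - x)
      exact ⟨⌊x⌋, ⟨h1.le, h2.le⟩, ⟨by linarith, by linarith⟩⟩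
  obtain ⟨δ1, hδ1, h1⟩ := one z.re
  obtain ⟨δ2, hδ2, h2⟩ := one z.im
  refine ⟨min δ1 δ2, lt_min hδ1 hδ2, fun w hw => ?_⟩
  have e1 : |w.re - z.re| < δ1 := by
    refine lt_of_le_of_lt ?_ (lt_of_lt_of_le hw (min_le_left _ _))
    rw [← sub_re]; exact Complex.abs_re_le_norm _
  have e2 : |w.im - z.im| < δ2 := by
    refine lt_of_le_of_lt ?_ (lt_of_lt_of_le hw (min_le_right _ _))
    rw [← sub_im]; exact Complex.abs_im_le_norm _
  obtain ⟨m, ⟨p1, p2⟩, ⟨p3, p4⟩⟩ := h1 _ e1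
  obtain ⟨n, ⟨q1, q2⟩, ⟨q3, q4⟩⟩ := h2 _ e2
  exact ⟨(m, n), ⟨p1, p2, q1, q2⟩, ⟨p3, p4, q3, q4⟩⟩

theorem sq_convex (s : ℤ × ℤ) : Convex ℝ (Sq s) := by
  have h1 : Convex ℝ {z : ℂ | (s.1 : ℝ) ≤ z.re} := convex_halfSpace_re_ge _
  have h2 : Convex ℝ {z : ℂ | z.re ≤ s.1 + 1} := convex_halfSpace_re_le _
  have h3 : Convex ℝ {z : ℂ | (s.2 : ℝ) ≤ z.im} := convex_halfSpace_im_ge _
  have h4 : Convex ℝ {z : ℂ | z.im ≤ s.2 + 1} := convex_halfSpace_im_le _
  exact h1.inter (h2.inter (h3.inter h4))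

theorem sh_eq {G X : Set ℂ} {f : ℂ → ℂ} {r : ℝ} 
    (h2 : ∀ x ∈ X, ∀ x' ∈ X, ‖f x - f x'‖ ≤ 2 → ‖x - x'‖ < r ∨ 2 * r ≤ ‖x - x'‖) {s : ℤ × ℤ} {x x' : ℂ}
    (hx : x ∈ X) (hx' : x' ∈ X) (hfx : f x ∈ Sq s) (hfx' : f x' ∈ Sq s)
    (hpc : pc G s (f x) = pc G s (f x')) (hd : ‖x - x'‖ < r) : sh G X f r s x = sh G X f r s x' := by
  have key : ∀ x ∈ X, ∀ x' ∈ X, f x' ∈ Sq s → pc G s (f x) = pc G s (f x') → ‖x - x'‖ < r →
      sh G X f r s x ⊆ sh G X f r s x' := by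
    rintro x hx x' hx' hfx' hpc hd w ⟨hw, hwp, hwd⟩
    rw [hpc] at hwp
    refine ⟨hw, hwp, ?_⟩
    have hws : f w ∈ Sq s := (connectedComponentIn_subset _ _ hwp).1
    rcases h2 w hw x' hx' (sq_norm hws hfx') with h | h
    · exact h
    · exfalso
      have : ‖w - x'‖ ≤ ‖w - x‖ + ‖x - x'‖ := by
        have e : w - x' = (w - x) + (x - x') := by ring
        rw [e]; exact norm_add_le _ _
      linarith
  refine subset_antisymm (key x hx x' hx' hfx' hpc hd) (key x' hx' x hx hfx hpc.symm ?_)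
  rw [norm_sub_rev]; exact hd

/-- LEMMA INJ at unit scale -/
theorem inj_core {F X : Set ℂ} {f : ℂ → ℂ} (hF : IsCompact F) (hFc : IsPreconnected Fᶜ)
    (hv : ∀ m n : ℤ, ((m : ℂ) + (n : ℂ) * I) ∉ F) (hX : IsPreconnected X) (hf : ContinuousOn f X)
    (hfX : MapsTo f X F) {r : ℝ} (hr : 0 < r)
    (h1 : ∀ x ∈ X, ∀ x' ∈ X, ‖x - x'‖ < r → f x = f x' → x = x')
    (h2 : ∀ x ∈ X, ∀ x' ∈ X, ‖f x - f x'‖ ≤ 2 → ‖x - x'‖ < r ∨ 2 * r ≤ ‖x - x'‖) : InjOn f X := by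
  -- the finite set of lattice points
  obtain ⟨R, hR⟩ := hF.isBounded.exists_norm_le
  obtain ⟨N, hN⟩ := exists_nat_ge (R + 1)
  set P : Set ℂ := (fun q : ℤ × ℤ => ((q.1 : ℂ) + (q.2 : ℂ) * I)) '' (Icc (-(N : ℤ)) N ×ˢ Icc (-(N : ℤ)) N)
    with hPdef
  have hPfin : P.Finite := ((finite_Icc _ _).prod (finite_Icc _ _)).image _
  have hPF : ∀ p ∈ P, p ∉ F := by
    rintro _ ⟨q, _, rfl⟩
    exact hv q.1 q.2
  have hPne : P.Nonempty := ⟨_, (0, 0), ⟨⟨by simp, by simp⟩, ⟨by simp, by simp⟩⟩, rfl⟩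
  obtain ⟨G, hGc, hGF, hPG, hB⟩ := exists_G hF hFc hPfin hPF hPne
  have hP : ∀ y ∈ F, ∀ m n : ℤ, |y.re - m| ≤ 1 → |y.im - n| ≤ 1 → ((m : ℂ) + (n : ℂ) * I) ∈ G := by
    intro y hy m n hm hn
    apply hPG
    have hy1 : |y.re| ≤ R := (Complex.abs_re_le_norm y).trans (hR y hy)
    have hy2 : |y.im| ≤ R := (Complex.abs_im_le_norm y).trans (hR y hy)
    rw [abs_le] at hm hn hy1 hy2
    refine ⟨(m, n), ⟨⟨?_, ?_⟩, ⟨?_, ?_⟩⟩, rfl⟩ <;> dsimp only
    · have : (-(N : ℝ)) ≤ m := by linarith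
      exact_mod_cast this
    · have : (m : ℝ) ≤ N := by linarith
      exact_mod_cast this
    · have : (-(N : ℝ)) ≤ n := by linarith
      exact_mod_cast this
    · have : (n : ℝ) ≤ N := by linarith
      exact_mod_cast this
  have hac := gam_acyclic hGc.isClosed hGF hB hP
  -- local injectivity of the projection
  have hloc : ∀ u v w : (ℤ × ℤ) × (Set ℂ × Set ℂ), (GX G X f r).Adj u v → (GX G X f r).Adj v w →
      prj (G := G) r hfX u = prj (G := G) r hfX w → u = w := by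
    rintro u v w ⟨huv, x, hx, hxu, hxv, eu, ev⟩ ⟨hvw, x', hx', hxv', hxw, ev', ew⟩ huw
    have huw' : ((u.1, u.2.1) : (ℤ × ℤ) × Set ℂ) = (w.1, w.2.1) := huw
    rw [Prod.mk.injEq] at huw'
    obtain ⟨h3, h4⟩ := huw'
    have e5 : pc G v.1 (f x) = pc G v.1 (f x') := by
      have := ev.symm.trans ev'
      exact congrArg (fun q => q.2.1) this
    have e6 : sh G X f r v.1 x = sh G X f r v.1 x' := by
      have := ev.symm.trans ev'
      exact congrArg (fun q => q.2.2) this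
    have hfxG' : f x' ∉ G := fun h => hGF _ h (hfX hx')
    have hxx : ‖x' - x‖ < r := by
      have hmem : x' ∈ sh G X f r v.1 x' :=
        ⟨hx', mem_connectedComponentIn ⟨hxv', hfxG'⟩, by simpa using hr⟩
      rw [← e6] at hmem
      exact hmem.2.2
    rw [eu, ew] at h4
    have h4' : pc G u.1 (f x) = pc G u.1 (f x') := by
      have : pc G u.1 (f x) = pc G w.1 (f x') := h4
      rwa [← h3] at this
    rw [eu, ew, ← h3]
    rw [← h3] at hxw
    unfold nu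
    rw [h4', sh_eq h2 hx hx' hxu hxw h4' (by rw [norm_sub_rev]; exact hxx)]
  -- distance of F from G
  have hsep : ∃ δ > 0, ∀ y ∈ F, ∀ z : ℂ, ‖z - y‖ < δ → z ∉ G := by
    obtain ⟨δ, hδ, hd⟩ := Metric.exists_pos_forall_lt_edist (s := F) (t := G) hF hGc.isClosed
      (Set.disjoint_left.2 fun z hz hz' => hGF z hz' hz)
    refine ⟨δ, by exact_mod_cast hδ, fun y hy z hz hzG => ?_⟩
    have h3 := hd y hy z hzG
    have h4 : edist y z < δ := by
      rw [edist_comm, edist_dist, dist_eq_norm]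
      rw [ENNReal.ofReal_lt_iff_lt_toReal (norm_nonneg _) ENNReal.coe_ne_top]
      simpa using hz
    exact absurd h3 (not_lt.2 h4.le)
  obtain ⟨δ0, hδ0, hsep⟩ := hsep
  -- local constancy
  have hlc : ∀ x ∈ X, ∃ δ > 0, ∀ x' ∈ X, ‖x' - x‖ < δ → ∃ s, f x ∈ Sq s ∧ f x' ∈ Sq s ∧
      nu G X f r s x = nu G X f r s x' := by
    intro x hx
    obtain ⟨δ1, hδ1, hsq⟩ := common_sq (f x)
    obtain ⟨δ2, hδ2, hcf⟩ := Metric.continuousWithinAt_iff.1 (hf x hx) (min δ0 δ1) (lt_min hδ0 hδ1)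
    refine ⟨min δ2 r, lt_min hδ2 hr, fun x' hx' hd => ?_⟩
    have hfd : ‖f x' - f x‖ < min δ0 δ1 := by
      have := hcf hx' (by rw [dist_eq_norm]; exact lt_of_lt_of_le hd (min_le_left _ _))
      rwa [dist_eq_norm] at this
    obtain ⟨s, hs1, hs2⟩ := hsq (f x') (lt_of_lt_of_le hfd (min_le_right _ _))
    refine ⟨s, hs1, hs2, ?_⟩
    have hseg : segment ℝ (f x) (f x') ⊆ Sq s ∩ Gᶜ := by
      intro z hz
      refine ⟨(sq_convex s).segment_subset hs1 hs2 hz, ?_⟩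
      apply hsep (f x) (hfX hx) z
      have hb : segment ℝ (f x) (f x') ⊆ Metric.ball (f x) δ0 := by
        refine (convex_ball (f x) δ0).segment_subset (Metric.mem_ball_self hδ0) ?_
        rw [Metric.mem_ball, dist_eq_norm]
        exact lt_of_lt_of_le hfd (min_le_left _ _)
      have := hb hz
      rwa [Metric.mem_ball, dist_eq_norm] at this
    have hpc : pc G s (f x) = pc G s (f x') := by
      refine connectedComponentIn_eq ?_
      exact (convex_segment (f x) (f x')).isPreconnected.subset_connectedComponentIn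
        (left_mem_segment ℝ _ _) hseg (right_mem_segment ℝ _ _)
    have hdr : ‖x - x'‖ < r := by
      rw [norm_sub_rev]; exact lt_of_lt_of_le hd (min_le_right _ _)
    unfold nu
    rw [hpc, sh_eq h2 hx hx' hs1 hs2 hpc hdr]
  -- all vertices of one point are reachable from each other
  have hsame : ∀ x ∈ X, ∀ s s' : ℤ × ℤ, f x ∈ Sq s → f x ∈ Sq s' →
      (GX G X f r).Reachable (nu G X f r s x) (nu G X f r s' x) := by
    intro x hx s s' hs hs'
    by_cases hss : s = s'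
    · rw [hss]
    · exact SimpleGraph.Adj.reachable ⟨hss, x, hx, hs, hs', rfl, rfl⟩
  intro p hp q hq hpq
  obtain ⟨δp, hδp, hsqp⟩ := common_sq (f p)
  obtain ⟨s0, hs0, _⟩ := hsqp (f p) (by simpa using hδp)
  -- reachability
  have hall : ∀ x ∈ X, ∀ s, f x ∈ Sq s → (GX G X f r).Reachable (nu G X f r s0 p) (nu G X f r s x) := by
    by_contra hcon
    push Not at hcon
    obtain ⟨x1, hx1, s1, hs1, hnr⟩ := hcon
    set Rch : ℂ → Prop := fun x => ∀ s, f x ∈ Sq s →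
      (GX G X f r).Reachable (nu G X f r s0 p) (nu G X f r s x) with hRch
    have hprop : ∀ x ∈ X, ∃ δ > 0, ∀ x' ∈ X, ‖x' - x‖ < δ → (Rch x ↔ Rch x') := by
      intro x hx
      obtain ⟨δ, hδ, hh⟩ := hlc x hx
      refine ⟨δ, hδ, fun x' hx' hd => ?_⟩
      obtain ⟨s, a1, a2, a3⟩ := hh x' hx' hd
      constructor
      · intro h t ht
        have h5 := h s a1
        rw [a3] at h5
        exact h5.trans (hsame x' hx' s t a2 ht)
      · intro h t ht
        have h5 := h s a2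
        rw [← a3] at h5
        exact h5.trans (hsame x hx s t a1 ht)
    choose! δ hδ hδ2 using hprop
    set U1 : Set ℂ := ⋃ x ∈ {x | x ∈ X ∧ Rch x}, Metric.ball x (δ x) with hU1
    set U2 : Set ℂ := ⋃ x ∈ {x | x ∈ X ∧ ¬ Rch x}, Metric.ball x (δ x) with hU2
    have o1 : IsOpen U1 := isOpen_biUnion fun _ _ => Metric.isOpen_ball
    have o2 : IsOpen U2 := isOpen_biUnion fun _ _ => Metric.isOpen_ball
    have hcov : X ⊆ U1 ∪ U2 := by
      intro x hx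
      by_cases h : Rch x
      · exact Or.inl (mem_biUnion (show x ∈ {x | x ∈ X ∧ Rch x} from ⟨hx, h⟩) (Metric.mem_ball_self (hδ x hx)))
      · exact Or.inr (mem_biUnion (show x ∈ {x | x ∈ X ∧ ¬ Rch x} from ⟨hx, h⟩) (Metric.mem_ball_self (hδ x hx)))
    have n1 : (X ∩ U1).Nonempty := by
      refine ⟨p, hp, mem_biUnion (show p ∈ {x | x ∈ X ∧ Rch x} from ⟨hp, ?_⟩) (Metric.mem_ball_self (hδ p hp))⟩
      intro s hs
      exact hsame p hp s0 s hs0 hs
    have n2 : (X ∩ U2).Nonempty := by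
      refine ⟨x1, hx1, mem_biUnion (show x1 ∈ {x | x ∈ X ∧ ¬ Rch x} from ⟨hx1, ?_⟩) (Metric.mem_ball_self (hδ x1 hx1))⟩
      intro h
      exact hnr (h s1 hs1)
    obtain ⟨z, hz, hz1, hz2⟩ := hX U1 U2 o1 o2 hcov n1 n2
    rw [hU1, mem_iUnion₂] at hz1
    rw [hU2, mem_iUnion₂] at hz2
    obtain ⟨a, ⟨ha, hRa⟩, haz⟩ := hz1
    obtain ⟨b, ⟨hb, hRb⟩, hbz⟩ := hz2
    rw [Metric.mem_ball, dist_eq_norm] at haz hbz
    exact hRb ((hδ2 b hb z hz hbz).2 ((hδ2 a ha z hz haz).1 hRa))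
  have hreach := hall q hq s0 (hpq ▸ hs0)
  have heq := eq_of_locinj hac (prj (G := G) r hfX) hloc hreach (by
    change (s0, pc G s0 (f p)) = (s0, pc G s0 (f q))
    rw [hpq])
  have hsheq : sh G X f r s0 p = sh G X f r s0 q := congrArg (fun q => q.2.2) heq
  have hqm : q ∈ sh G X f r s0 q :=
    ⟨hq, mem_connectedComponentIn ⟨hpq ▸ hs0, fun h => hGF _ h (hfX hq)⟩, by simpa using hr⟩
  rw [← hsheq] at hqm
  exact h1 p hp q hq (by rw [norm_sub_rev]; exact hqm.2.2) hpq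

end Pool.Agent.H15.INJ
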