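import Pool.Agent.H15.INJ.Lift

/-!
# LEMMA INJ: `inj_on_full`

`F` compact without interior, `Fᶜ` connected; a locally injective continuous map of a compact connected set `X`
into `F` is injective.
-/

set_option autoImplicit false

namespace Pool.Agent.H15.INJ

open Complex Set

/-- Baire: a translated grid with no vertex in `F` -/
theorem exists_shift {F : Set ℂ} (hF : IsClosed F) (hFi : interior F = ∅) (h : ℝ) :
    ∃ c : ℂ, ∀ m n : ℤ, (c + (h : ℂ) * ((m : ℂ) + (n : ℂ) * I)) ∉ F := by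
  have hd : Dense (⋂ q : ℤ × ℤ, (fun c : ℂ => c + (h : ℂ) * ((q.1 : ℂ) + (q.2 : ℂ) * I)) ⁻¹' Fᶜ) := by
    refine dense_iInter_of_isOpen (fun q => ?_) (fun q => ?_)
    · exact hF.isOpen_compl.preimage (by fun_prop)
    · have hFd : Dense Fᶜ := by
        rw [← interior_eq_empty_iff_dense_compl]; exact hFi
      exact hFd.preimage (Homeomorph.addRight ((h : ℂ) * ((q.1 : ℂ) + (q.2 : ℂ) * I))).isOpenMap
  obtain ⟨c, hc⟩ := hd.nonempty
  rw [mem_iInter] at hc
  exact ⟨c, fun m n => hc (m, n)⟩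

/-- LEMMA INJ -/
theorem inj_on_full {F X : Set ℂ} {f : ℂ → ℂ} (hF : IsCompact F) (hFc : IsPreconnected Fᶜ)
    (hFi : interior F = ∅) (hX : IsCompact X) (hXc : IsPreconnected X) (hf : ContinuousOn f X)
    (hfX : MapsTo f X F) (hloc : ∀ x ∈ X, ∃ W, IsOpen W ∧ x ∈ W ∧ InjOn f (W ∩ X)) : InjOn f X := by
  -- the radius
  have hρ : ∃ ρ > 0, ∀ x ∈ X, ∀ x' ∈ X, ‖x - x'‖ < ρ → f x = f x' → x = x' := by
    choose! W hWo hWx hWi using hloc
    obtain ⟨ρ, hρ, hb⟩ := lebesgue_number_lemma_of_metric (c := fun x : X => W x) hX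
      (fun x => hWo x x.2) (fun x hx => mem_iUnion.2 ⟨⟨x, hx⟩, hWx x hx⟩)
    refine ⟨ρ, hρ, fun x hx x' hx' hd he => ?_⟩
    obtain ⟨⟨w, hw⟩, hsub⟩ := hb x hx
    refine hWi w hw ⟨hsub (Metric.mem_ball_self hρ), hx⟩ ⟨hsub ?_, hx'⟩ he
    rw [Metric.mem_ball, dist_comm, dist_eq_norm]
    exact hd
  obtain ⟨ρ, hρ, hinj⟩ := hρ
  set r : ℝ := ρ / 4 with hr
  have hr0 : 0 < r := by positivity
  have hm : ∃ μ > 0, ∀ x ∈ X, ∀ x' ∈ X, r ≤ ‖x - x'‖ → ‖x - x'‖ ≤ 2 * r → μ ≤ ‖f x - f x'‖ := by
    set K : Set (ℂ × ℂ) := (X ×ˢ X) ∩ {q | r ≤ ‖q.1 - q.2‖ ∧ ‖q.1 - q.2‖ ≤ 2 * r} with hK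
    have hKc : IsCompact K := by
      refine (hX.prod hX).inter_right ?_
      have hn : Continuous fun q : ℂ × ℂ => ‖q.1 - q.2‖ := by fun_prop
      exact (isClosed_le continuous_const hn).inter (isClosed_le hn continuous_const)
    rcases K.eq_empty_or_nonempty with he | hne
    · refine ⟨1, one_pos, fun x hx x' hx' h1 h2 => ?_⟩
      have : (x, x') ∈ K := ⟨⟨hx, hx'⟩, h1, h2⟩
      rw [he] at this
      exact absurd this (notMem_empty _)
    · have hcont : ContinuousOn (fun q : ℂ × ℂ => ‖f q.1 - f q.2‖) K := by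
        refine ContinuousOn.norm (ContinuousOn.sub ?_ ?_)
        · exact hf.comp continuous_fst.continuousOn fun q hq => hq.1.1
        · exact hf.comp continuous_snd.continuousOn fun q hq => hq.1.2
      obtain ⟨q, hq, hmin⟩ := hKc.exists_isMinOn hne hcont
      refine ⟨‖f q.1 - f q.2‖, ?_, fun x hx x' hx' h1 h2 => ?_⟩
      · rw [gt_iff_lt, norm_pos_iff, sub_ne_zero]
        intro he
        have h3 := hinj q.1 hq.1.1 q.2 hq.1.2 (by
          have := hq.2.2
          rw [hr] at this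
          linarith) he
        have h4 := hq.2.1
        rw [h3, sub_self, norm_zero] at h4
        linarith
      · exact hmin (show (x, x') ∈ K from ⟨⟨hx, hx'⟩, h1, h2⟩)
  obtain ⟨μ, hμ, hμ2⟩ := hm
  set h : ℝ := μ / 4 with hh
  have hh0 : 0 < h := by positivity
  have hhc : (h : ℂ) ≠ 0 := ofReal_ne_zero.2 hh0.ne'
  obtain ⟨c, hc⟩ := exists_shift hF.isClosed hFi h
  -- scaling
  set T : ℂ → ℂ := fun z => (z - c) / h with hT
  have hTc : Continuous T := by fun_prop
  have hTb : Function.Bijective T := by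
    constructor
    · intro a b hab
      have h1 : (a - c) / (h : ℂ) = (b - c) / h := hab
      have h2 : a - c = b - c := by
        field_simp at h1
        exact h1
      linear_combination h2
    · intro w
      refine ⟨c + h * w, ?_⟩
      change (c + h * w - c) / (h : ℂ) = w
      field_simp
      ring
  have hTF : IsPreconnected (T '' F)ᶜ := by
    rw [← image_compl_eq hTb]
    exact hFc.image _ hTc.continuousOn
  have key : InjOn (T ∘ f) X := by
    refine inj_core (F := T '' F) (r := r) (hF.image hTc) hTF ?_ hXc (hTc.comp_continuousOn hf)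
      (fun x hx => mem_image_of_mem T (hfX hx)) hr0 ?_ ?_
    · rintro m n ⟨z, hz, hzT⟩
      apply hc m n
      have h1 : (z - c) / (h : ℂ) = (m : ℂ) + (n : ℂ) * I := hzT
      have h2 : z = c + (h : ℂ) * ((m : ℂ) + (n : ℂ) * I) := by
        rw [← h1]; field_simp; ring
      rw [← h2]; exact hz
    · intro x hx x' hx' hd he
      refine hinj x hx x' hx' ?_ (hTb.1 he)
      rw [hr] at hd
      linarith
    · intro x hx x' hx' hd
      by_contra hcon
      push Not at hcon
      have h1 := hμ2 x hx x' hx' hcon.1 hcon.2.le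
      have h2 : T (f x) - T (f x') = (f x - f x') / h := by
        change (f x - c) / (h : ℂ) - (f x' - c) / h = _
        field_simp
        ring
      have h3 : ‖f x - f x'‖ ≤ 2 * h := by
        simp only [Function.comp_apply] at hd
        rw [h2, norm_div, norm_real, Real.norm_eq_abs, abs_of_pos hh0, div_le_iff₀ hh0] at hd
        exact hd
      rw [hh] at h3
      linarith
  intro x hx x' hx' he
  exact key hx hx' (by simp only [Function.comp_apply, he])

end Pool.Agent.H15.INJ
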